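import Pool.Agent.BEJ.Stmts
import Pool.Agent.Helper93_BEB.HLI

set_option autoImplicit false

/-! # Squad BEJ, row PI2: `π²` is irrational -/

namespace Pool.Agent.BEJ.H10

theorem pi2 : Pi2Stmt := by
  rintro ⟨q, hq⟩
  have hβ : ((Real.pi : ℂ) * Complex.I) ≠ 0 :=
    mul_ne_zero (by exact_mod_cast Real.pi_ne_zero) Complex.I_ne_zero
  have halg : IsAlgebraic ℚ ((Real.pi : ℂ) * Complex.I) := by
    have h2 : IsAlgebraic ℚ (((Real.pi : ℂ) * Complex.I) ^ 2) := by
      have e : ((Real.pi : ℂ) * Complex.I) ^ 2 = algebraMap ℚ ℂ (-q) := by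
        rw [mul_pow, Complex.I_sq, mul_neg_one, map_neg]
        congr 1
        have h3 : ((Real.pi ^ 2 : ℝ) : ℂ) = ((q : ℝ) : ℂ) := by rw [← hq]
        rw [Complex.ofReal_pow] at h3
        rw [h3, Complex.ofReal_ratCast]
        rfl
      rw [e]
      exact isAlgebraic_algebraMap _
    exact IsAlgebraic.of_pow two_pos h2
  refine Pool.Agent.BEB.H93.hli _ hβ halg ?_
  rw [Complex.exp_pi_mul_I]
  exact isAlgebraic_one.neg

end Pool.Agent.BEJ.H10
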